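import Pool.Agent.W6h79.HT3.Main

/-!
A recursive colouring with no infinite `Σ⁰₄` (in particular no infinite `Π⁰₃`) solution for
`HT^{≤3}`.
-/

namespace Pool.Agent.Results.MP_c0e71b_lc.NoSigmaFourThreeSums

open Pool.Agent.H645R2.HT Pool.Agent.W6h79.HT3

/-- There is a computable colouring `c` of the positive integers with `32` colours such that no
infinite set `X` of positive integers, all of whose sums of one, two or three distinct elements get
the same colour, is `Σ⁰₄`; in particular no such `X` is `Π⁰₃`. -/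
theorem result :
    ∃ c : ℕ → Fin 32, Computable c ∧
      ∀ X : Set ℕ, X.Infinite → 0 ∉ X →
        (∃ i, ∀ F : Finset ℕ, (F : Set ℕ) ⊆ X → F.Nonempty → F.card ≤ 3 →
          c (∑ n ∈ F, n) = i) →
        (∀ R : ℕ → ℕ → ℕ → ℕ → ℕ → Bool,
          Computable (fun x : ℕ × ℕ × ℕ × ℕ × ℕ => R x.1 x.2.1 x.2.2.1 x.2.2.2.1 x.2.2.2.2) →
          X ≠ {n | ∃ a, ∀ b, ∃ t, ∀ u, R n a b t u = true}) ∧
        (∀ R : ℕ → ℕ → ℕ → ℕ → Bool,
          Computable (fun x : ℕ × ℕ × ℕ × ℕ => R x.1 x.2.1 x.2.2.1 x.2.2.2) →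
          X ≠ {n | ∀ a, ∃ b, ∀ t, R n a b t = true}) := by
  refine ⟨col5 W0, c_col5 c_W0, fun X hinf h0 hc => ?_⟩
  have key := no_sigma4_col5 hinf h0 hc
  refine ⟨key, fun R hR hX => ?_⟩
  refine key (fun n _ b t u => R n b t u)
    (hR.comp (g := fun x : ℕ × ℕ × ℕ × ℕ × ℕ => (x.1, x.2.2.1, x.2.2.2.1, x.2.2.2.2)) ?_) ?_
  · exact Computable.fst.pair ((Computable.fst.comp (Computable.snd.comp Computable.snd)).pair
      ((Computable.fst.comp (Computable.snd.comp (Computable.snd.comp Computable.snd))).pair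
        (Computable.snd.comp (Computable.snd.comp (Computable.snd.comp Computable.snd)))))
  · rw [hX]
    ext n
    simp only [Set.mem_setOf_eq, exists_const]

end Pool.Agent.Results.MP_c0e71b_lc.NoSigmaFourThreeSums
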